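import Pool.Agent.Helper3.FS.Ar3

/-!
# Elements of decomposition groups over the cyclotomic extension have no `p`-part on residues
-/

set_option autoImplicit false

open scoped NumberField Pointwise
open NumberField

namespace Pool.Agent.Helper27.FS

open Pool.Agent.Helper58.FS Pool.Agent.Helper3.FS

theorem frob_pow {κ : Type*} [Field κ] (l : ℕ) [Fact l.Prime] [Algebra (ZMod l) κ]
    [Algebra.IsAlgebraic (ZMod l) κ] (φ : κ →+* κ) (x y : κ) :
    ∃ b : ℕ, φ x = x ^ l ^ b ∧ φ y = y ^ l ^ b := by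
  let E : IntermediateField (ZMod l) κ := IntermediateField.adjoin (ZMod l) {x, y}
  have hE : FiniteDimensional (ZMod l) E :=
    IntermediateField.finiteDimensional_adjoin (fun z _ => Algebra.IsIntegral.isIntegral z)
  have hfin : Finite E := Module.finite_of_finite (ZMod l)
  have hnorm : Normal (ZMod l) E := inferInstance
  let ψ : κ →ₐ[ZMod l] κ := AlgHom.mk φ (fun r => RingHom.congr_fun (Subsingleton.elim
    (φ.comp (algebraMap (ZMod l) κ)) (algebraMap (ZMod l) κ)) r)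
  let ρ : E →ₐ[ZMod l] E := ψ.restrictNormal E
  obtain ⟨n, hn⟩ := (FiniteField.bijective_frobeniusAlgHom_pow (ZMod l) E).2 ρ
  have key : ∀ z : E, φ (z : κ) = (z : κ) ^ l ^ n.1 := by
    intro z
    have h1 : ((ρ z : E) : κ) = φ z := ψ.restrictNormal_commutes E z
    rw [← h1, ← hn]
    have h2 : (FiniteField.frobeniusAlgHom (ZMod l) E ^ n.1) z = z ^ l ^ n.1 := by
      rw [AlgHom.coe_pow, FiniteField.coe_frobeniusAlgHom, pow_iterate, ZMod.card]
    change (((FiniteField.frobeniusAlgHom (ZMod l) E ^ n.1) z : E) : κ) = _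
    rw [h2]
    rfl
  exact ⟨n, key ⟨x, IntermediateField.subset_adjoin _ _ (by simp)⟩,
    key ⟨y, IntermediateField.subset_adjoin _ _ (by simp)⟩⟩

theorem iterate_frob {κ : Type*} [Field κ] (l b : ℕ) (φ : κ →+* κ) (x : κ)
    (h : φ x = x ^ l ^ b) (j : ℕ) : φ^[j] x = x ^ l ^ (b * j) := by
  induction j with
  | zero => simp
  | succ j ih =>
    rw [Function.iterate_succ_apply', ih, map_pow, h, ← pow_mul, ← pow_add]
    congr 2
    ring

/-- the arithmetic: valuations of `l ^ ((p - 1) b) - 1` -/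
theorem dvd_of_dvd {p l m c b : ℕ} [hp : Fact p.Prime] (hp2 : p ≠ 2) (hl : l.Prime) (hlp : l ≠ p)
    (hc : c = padicValNat p (l ^ (p - 1) - 1)) (h : p ^ (m + c) ∣ l ^ (b * (p - 1)) - 1) :
    p ^ m ∣ b := by
  rcases Nat.eq_zero_or_pos b with rfl | hb
  · exact dvd_zero _
  have hpp := hp.out
  have hp1 : 1 ≤ p - 1 := by
    have := hpp.two_le
    omega
  have hcop : ¬ p ∣ l := fun hd => hlp ((Nat.prime_dvd_prime_iff_eq hpp hl).1 hd).symm
  have h1 : 1 < l ^ (p - 1) := Nat.one_lt_pow (by omega) hl.one_lt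
  have h2 : p ∣ l ^ (p - 1) - 1 := by
    have h3 := Nat.ModEq.pow_totient ((Nat.Prime.coprime_iff_not_dvd hpp).2 hcop).symm
    rw [Nat.totient_prime hpp] at h3
    exact (Nat.modEq_iff_dvd' h1.le).1 h3.symm
  have h3 : ¬ p ∣ l ^ (p - 1) := fun hd => hcop (hpp.dvd_of_dvd_pow hd)
  have h4 := padicValNat.pow_sub_pow (hpp.odd_of_ne_two hp2) h1 h2 h3 hb.ne'
  rw [one_pow, ← pow_mul, mul_comm (p - 1) b, ← hc] at h4
  have h5 : 0 < l ^ (b * (p - 1)) - 1 := by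
    have : 1 < l ^ (b * (p - 1)) := Nat.one_lt_pow (Nat.mul_pos hb (by omega)).ne' hl.one_lt
    omega
  have h6 := (padicValNat_dvd_iff_le h5.ne').1 h
  exact (padicValNat_dvd_iff_le hb.ne').2 (by omega)

variable {Ω : Type*} [Field Ω] [CharZero Ω] [IsAlgClosed Ω] [Algebra.IsAlgebraic ℚ Ω]
  (p : ℕ) [Fact p.Prime]

theorem pow_fix (h : GQ Ω) (hC : h ∈ Cyc Ω p) (n : ℕ) (t : Ω) (ht : t ^ p ^ n = 1) :
    (h ^ (p - 1)) t = t := by
  have hp : p.Prime := Fact.out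
  rcases Nat.eq_zero_or_pos n with rfl | hn
  · rw [pow_zero, pow_one] at ht
    rw [ht, map_one]
  have h1 : (cyclotomicCharacter Ω p (MulSemiringAction.toRingAut (GQ Ω) Ω (h ^ (p - 1)))) = 1 := by
    rw [map_pow, map_pow]
    exact hC
  have h2 := cyclotomicCharacter.spec p (MulSemiringAction.toRingAut (GQ Ω) Ω (h ^ (p - 1))) t ht
  rw [h1, Units.val_one, map_one] at h2
  have hlt : 1 < p ^ n := Nat.one_lt_pow hn.ne' hp.one_lt
  haveI : Fact (1 < p ^ n) := ⟨hlt⟩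
  rw [ZMod.val_one, pow_one] at h2
  exact h2

theorem exists_char (P : Prm Ω) : ∃ l : ℕ, l.Prime ∧ (l : 𝓞 Ω) ∈ P.1 ∧ P.1.IsMaximal := by
  have hPp : P.1.IsPrime := P.2.1
  have h1 : P.1.comap (algebraMap ℤ (𝓞 Ω)) ≠ ⊥ := fun h => P.2.2 (Ideal.eq_bot_of_comap_eq_bot h)
  have h2 : (P.1.comap (algebraMap ℤ (𝓞 Ω))).IsPrime := inferInstance
  have h3 : (P.1.comap (algebraMap ℤ (𝓞 Ω))).IsMaximal := h2.isMaximal h1
  have h4 : P.1.IsMaximal := Ideal.isMaximal_of_isIntegral_of_isMaximal_comap (R := ℤ) P.1 h3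
  obtain ⟨l, hl⟩ := CharP.exists (𝓞 Ω ⧸ P.1)
  have h5 : l ≠ 0 := by
    rintro rfl
    obtain ⟨m, hm, hm0⟩ := Submodule.exists_mem_ne_zero_of_ne_bot h1
    have h6 : ((m : ℤ) : 𝓞 Ω ⧸ P.1) = 0 := by
      have := Ideal.Quotient.eq_zero_iff_mem.2 (Ideal.mem_comap.1 hm)
      simpa using this
    rw [CharP.intCast_eq_zero_iff (𝓞 Ω ⧸ P.1) 0] at h6
    exact hm0 (by simpa using h6)
  refine ⟨l, (CharP.char_is_prime_or_zero (𝓞 Ω ⧸ P.1) l).resolve_right h5, ?_, h4⟩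
  rw [← Ideal.Quotient.eq_zero_iff_mem, map_natCast]
  exact CharP.cast_eq_zero _ l

theorem ar1 (hp : p ≠ 2) (P : Prm Ω) (hpP : (p : 𝓞 Ω) ∉ P.1) (h : GQ Ω) (hC : h ∈ Cyc Ω p)
    (hP : h • P = P) (θ : 𝓞 Ω) : ∃ e : ℕ, e.Coprime p ∧ (h ^ e) • θ - θ ∈ P.1 := by
  have hpp : p.Prime := Fact.out
  have hPp : P.1.IsPrime := P.2.1
  obtain ⟨l, hl, hlP, hmax⟩ := exists_char P
  have hlp : l ≠ p := by
    rintro rfl
    exact hpP hlP
  have hlf : Fact l.Prime := ⟨hl⟩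
  letI : Field (𝓞 Ω ⧸ P.1) := Ideal.Quotient.field P.1
  have hl0 : (l : 𝓞 Ω ⧸ P.1) = 0 := by
    have := Ideal.Quotient.eq_zero_iff_mem.2 hlP
    rwa [map_natCast] at this
  have hchar : CharP (𝓞 Ω ⧸ P.1) l := (CharP.charP_iff_prime_eq_zero hl).2 hl0
  letI : Algebra (ZMod l) (𝓞 Ω ⧸ P.1) := ZMod.algebra _ l
  have hint : Algebra.IsIntegral ℤ (𝓞 Ω ⧸ P.1) := inferInstance
  have halg : Algebra.IsAlgebraic (ZMod l) (𝓞 Ω ⧸ P.1) := by
    refine ⟨fun x => ?_⟩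
    have h1 : IsIntegral (ZMod l) x := IsIntegral.tower_top (R := ℤ) (hint.isIntegral x)
    exact h1.isAlgebraic
  -- the action on the residue field
  have hle : P.1 ≤ Ideal.comap (MulSemiringAction.toRingHom (GQ Ω) (𝓞 Ω) h) P.1 := by
    intro x hx
    have h1 : h • x ∈ h • P.1 := Ideal.smul_mem_pointwise_smul h x P.1 hx
    have h2 : h • P.1 = P.1 := congrArg Subtype.val hP
    rw [h2] at h1
    exact h1
  let φ : (𝓞 Ω ⧸ P.1) →+* (𝓞 Ω ⧸ P.1) :=
    Ideal.quotientMap P.1 (MulSemiringAction.toRingHom (GQ Ω) (𝓞 Ω) h) hle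
  have hφ : ∀ x : 𝓞 Ω, φ (Ideal.Quotient.mk P.1 x) = Ideal.Quotient.mk P.1 (h • x) := fun x =>
    Ideal.quotientMap_mk
  have hφj : ∀ (j : ℕ) (x : 𝓞 Ω), φ^[j] (Ideal.Quotient.mk P.1 x) =
      Ideal.Quotient.mk P.1 (h ^ j • x) := by
    intro j x
    induction j with
    | zero => simp
    | succ j ih => rw [Function.iterate_succ_apply', ih, hφ, pow_succ', mul_smul]
  -- the degree of `θ` modulo `P`
  obtain ⟨f, hf0, hf⟩ : ∃ f : ℕ, f ≠ 0 ∧
      (Ideal.Quotient.mk P.1 θ) ^ l ^ f = Ideal.Quotient.mk P.1 θ := by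
    set x := Ideal.Quotient.mk P.1 θ
    let E : IntermediateField (ZMod l) (𝓞 Ω ⧸ P.1) := IntermediateField.adjoin (ZMod l) {x}
    have hE : FiniteDimensional (ZMod l) E :=
      IntermediateField.adjoin.finiteDimensional (Algebra.IsIntegral.isIntegral x)
    have hfin : Finite E := Module.finite_of_finite (ZMod l)
    have : Fintype E := Fintype.ofFinite E
    refine ⟨Module.finrank (ZMod l) E, Module.finrank_pos.ne', ?_⟩
    have h1 := FiniteField.pow_card (⟨x, IntermediateField.mem_adjoin_simple_self _ x⟩ : E)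
    rw [Module.card_eq_pow_finrank (K := ZMod l) (V := E), ZMod.card] at h1
    exact congrArg Subtype.val h1
  obtain ⟨m, e, hpe, hfe⟩ := Nat.exists_eq_pow_mul_and_not_dvd hf0 p hpp.ne_one
  -- roots of unity
  set c := padicValNat p (l ^ (p - 1) - 1) with hc
  obtain ⟨ζ, hζ⟩ := HasEnoughRootsOfUnity.exists_primitiveRoot Ω (p ^ (m + c))
  have hζi : IsIntegral ℤ ζ := by
    apply IsIntegral.of_pow (n := p ^ (m + c)) (pow_pos hpp.pos _)
    rw [hζ.pow_eq_one]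
    exact isIntegral_one
  obtain ⟨z, hz⟩ : ∃ z : 𝓞 Ω, algebraMap (𝓞 Ω) Ω z = ζ := ⟨⟨ζ, hζi⟩, rfl⟩
  have hz1 : z ^ p ^ (m + c) = 1 := by
    apply FaithfulSMul.algebraMap_injective (𝓞 Ω) Ω
    rw [map_pow, hz, hζ.pow_eq_one, map_one]
  have hzfix : h ^ (p - 1) • z = z := by
    apply FaithfulSMul.algebraMap_injective (𝓞 Ω) Ω
    have h1 := pow_fix p h hC (m + c) ζ hζ.pow_eq_one
    rw [← hz] at h1
    exact h1
  obtain ⟨b, hb1, hb2⟩ := frob_pow l φ (Ideal.Quotient.mk P.1 θ) (Ideal.Quotient.mk P.1 z)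
  have h3 := iterate_frob l b φ _ hb2 (p - 1)
  rw [hφj, hzfix] at h3
  have hdvd : p ^ (m + c) ∣ l ^ (b * (p - 1)) - 1 := by
    have hpos : 0 < l ^ (b * (p - 1)) := pow_pos hl.pos _
    have hzu : IsUnit (Ideal.Quotient.mk P.1 z) :=
      IsUnit.of_pow_eq_one (n := p ^ (m + c)) (by rw [← map_pow, hz1, map_one])
        (pow_pos hpp.pos _).ne'
    have h4 : Ideal.Quotient.mk P.1 (z ^ (l ^ (b * (p - 1)) - 1)) = 1 := by
      have h5 : Ideal.Quotient.mk P.1 z * Ideal.Quotient.mk P.1 (z ^ (l ^ (b * (p - 1)) - 1)) =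
          Ideal.Quotient.mk P.1 z * 1 := by
        rw [map_pow, ← pow_succ', Nat.sub_add_cancel hpos, mul_one]
        exact h3.symm
      exact hzu.mul_left_cancel h5
    have h6 : z ^ (l ^ (b * (p - 1)) - 1) = 1 := by
      apply roots_inj P.1 (prime_not_mem P.1 hl hpp hlp hlP (m + c))
      · rw [← pow_mul, mul_comm, pow_mul, hz1, one_pow]
      · exact one_pow _
      · rw [← Ideal.Quotient.eq, h4, map_one]
    apply (hζ.pow_eq_one_iff_dvd _).1
    rw [← hz, ← map_pow, h6, map_one]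
  obtain ⟨b', hb'⟩ := dvd_of_dvd hp hl hlp hc hdvd
  refine ⟨e, ((Nat.Prime.coprime_iff_not_dvd hpp).2 hpe).symm, ?_⟩
  rw [← Ideal.Quotient.eq, ← hφj, iterate_frob l b φ _ hb1 e]
  have h7 : b * e = f * b' := by
    rw [hb', hfe]
    ring
  rw [h7]
  have h8 : ∀ j : ℕ, (Ideal.Quotient.mk P.1 θ) ^ l ^ (f * j) = Ideal.Quotient.mk P.1 θ := by
    intro j
    induction j with
    | zero => simp
    | succ j ih =>
      rw [Nat.mul_succ, pow_add, pow_mul, ih, hf]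
  exact h8 b'

end Pool.Agent.Helper27.FS
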