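import Pool.Agent.Helper58.FS.Br
import Pool.Agent.Helper58.IQ.S2c

/-!
# Modules of order 9 and functions on the cube roots of an element
-/

set_option autoImplicit false

open scoped NumberField Pointwise

namespace Pool.Agent.Helper27.FS

open Pool.Agent.Helper58.FS Pool.Agent.Helper58.IQ

variable {K : Type*} [Field K] [CharZero K]

/-! ### cube roots -/

theorem zet3 : zet K ^ 3 = 1 := by
  have h := zet_root (K := K)
  linear_combination (zet K - 1) * h

theorem zet_ne_one : zet K ≠ 1 := by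
  intro h
  have h1 := zet_root (K := K)
  rw [h] at h1
  have h2 : (3 : Kb K) = 0 := by linear_combination h1
  exact three_ne_zero h2

theorem zet_prim : IsPrimitiveRoot (zet K) 3 := by
  have : Fact (Nat.Prime 3) := ⟨Nat.prime_three⟩
  have h := orderOf_eq_prime (zet3 (K := K)) zet_ne_one
  rw [← h]
  exact IsPrimitiveRoot.orderOf _

theorem zv_add (i j : ZMod 3) :
    zet K ^ (i + j).val = zet K ^ i.val * zet K ^ j.val := by
  rw [ZMod.val_add, ← pow_add]
  exact (pow_eq_pow_mod _ zet3).symm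

theorem g_zet (g : GK K) :
    g (zet K) = zet K ^ (((qch (-3 : K) g : ℤˣ) : ℤ) : ZMod 3).val := by
  have h := qch_sqr (-3 : K) g
  rw [← zet_eq] at h
  rw [map_add, map_mul, map_one, map_ofNat] at h
  rcases Int.units_eq_one_or (qch (-3 : K) g) with h1 | h1
  · rw [h1] at h ⊢
    simp only [Units.val_one, one_smul] at h
    have h2 : ((((1 : ℤˣ) : ℤ) : ZMod 3)).val = 1 := by decide
    rw [h2, pow_one]
    have : (2 : Kb K) * g (zet K) = 2 * zet K := by linear_combination h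
    exact mul_left_cancel₀ two_ne_zero this
  · rw [h1] at h ⊢
    simp only [Units.val_neg, Units.val_one, neg_smul, one_smul] at h
    have h2 : ((((-1 : ℤˣ) : ℤ) : ZMod 3)).val = 2 := by decide
    rw [h2]
    have h3 := zet_root (K := K)
    have : (2 : Kb K) * g (zet K) = 2 * zet K ^ 2 := by linear_combination h - 2 * h3
    exact mul_left_cancel₀ two_ne_zero this

theorem g_zv (g : GK K) (j : ZMod 3) :
    g (zet K ^ j.val) = zet K ^ ((((qch (-3 : K) g : ℤˣ) : ℤ) : ZMod 3) * j).val := by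
  rw [map_pow, g_zet, ← pow_mul, ZMod.val_mul]
  exact pow_eq_pow_mod _ zet3

variable {θ : Kb K} {δ : K}

theorem kcases (hθ : θ ^ 3 = algebraMap K (Kb K) δ) (g : GK K) :
    (kk θ g = 0 ∧ g θ = θ) ∨ (kk θ g = 1 ∧ g θ = zet K * θ) ∨
      (kk θ g = 2 ∧ g θ = zet K * (zet K * θ)) := by
  unfold kk
  by_cases h1 : g θ = θ
  · left
    exact ⟨if_pos h1, h1⟩
  · right
    by_cases h2 : g θ = zet K * θ
    · left
      rw [if_neg h1, if_pos h2]
      exact ⟨rfl, h2⟩
    · right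
      rw [if_neg h1, if_neg h2]
      refine ⟨rfl, ?_⟩
      have h3 : (g θ) ^ 3 = θ ^ 3 := by
        rw [← map_pow, hθ, AlgEquiv.commutes]
      have hz := zet_root (K := K)
      have : (g θ - θ) * ((g θ - zet K * θ) * (g θ - zet K * (zet K * θ))) = 0 := by
        linear_combination h3 + (-(g θ) ^ 2 * θ + g θ * θ ^ 2 * zet K - θ ^ 3 * (zet K - 1)) * hz
      rcases mul_eq_zero.1 this with h4 | h4
      · exact absurd (sub_eq_zero.1 h4) h1
      · rcases mul_eq_zero.1 h4 with h5 | h5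
        · exact absurd (sub_eq_zero.1 h5) h2
        · exact sub_eq_zero.1 h5

theorem g_theta (hθ : θ ^ 3 = algebraMap K (Kb K) δ) (g : GK K) :
    g θ = zet K ^ ((kk θ g : ℤ) : ZMod 3).val * θ := by
  rcases kcases hθ g with ⟨h1, h2⟩ | ⟨h1, h2⟩ | ⟨h1, h2⟩
  · rw [h1, h2]
    have : (((0 : ℤ) : ZMod 3)).val = 0 := by decide
    rw [this, pow_zero, one_mul]
  · rw [h1, h2]
    have : (((1 : ℤ) : ZMod 3)).val = 1 := by decide
    rw [this, pow_one]
  · rw [h1, h2]
    have : (((2 : ℤ) : ZMod 3)).val = 2 := by decide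
    rw [this]
    ring

/-- The cube root number `j`. -/
noncomputable def rt (θ : Kb K) (j : ZMod 3) : Kb K := zet K ^ j.val * θ

/-- The action on the numbers of the cube roots. -/
noncomputable def pi0 (θ : Kb K) (g : GK K) (j : ZMod 3) : ZMod 3 :=
  (((qch (-3 : K) g : ℤˣ) : ℤ) : ZMod 3) * j + ((kk θ g : ℤ) : ZMod 3)

theorem g_rt (hθ : θ ^ 3 = algebraMap K (Kb K) δ) (g : GK K) (j : ZMod 3) :
    g (rt θ j) = rt θ (pi0 θ g j) := by
  unfold rt pi0
  rw [map_mul, g_zv, g_theta hθ, zv_add]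
  ring

theorem rt_inj (h0 : θ ≠ 0) : Function.Injective (rt θ) := by
  intro i j h
  unfold rt at h
  have h1 := mul_right_cancel₀ h0 h
  exact ZMod.val_injective 3 (zet_prim.pow_inj (ZMod.val_lt i) (ZMod.val_lt j) h1)

theorem rt_zero : rt θ 0 = θ := by
  unfold rt
  rw [ZMod.val_zero, pow_zero, one_mul]

theorem rt_cube (hθ : θ ^ 3 = algebraMap K (Kb K) δ) (j : ZMod 3) :
    rt θ j ^ 3 = algebraMap K (Kb K) δ := by
  unfold rt
  rw [mul_pow, ← pow_mul, mul_comm _ 3, pow_mul, zet3, one_pow, one_mul, hθ]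

theorem pi0_one (hθ : θ ^ 3 = algebraMap K (Kb K) δ) (h0 : θ ≠ 0) (j : ZMod 3) :
    pi0 θ 1 j = j := by
  apply rt_inj h0
  rw [← g_rt hθ]
  rfl

theorem pi0_mul (hθ : θ ^ 3 = algebraMap K (Kb K) δ) (h0 : θ ≠ 0) (g h : GK K) (j : ZMod 3) :
    pi0 θ (g * h) j = pi0 θ g (pi0 θ h j) := by
  apply rt_inj h0
  rw [← g_rt hθ, ← g_rt hθ, ← g_rt hθ]
  rfl

theorem pi0_fix (hθ : θ ^ 3 = algebraMap K (Kb K) δ) (h0 : θ ≠ 0) (g : GK K) :
    pi0 θ g 0 = 0 ↔ g θ = θ := by
  constructor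
  · intro h
    have h1 := g_rt hθ g 0
    rw [h, rt_zero] at h1
    exact h1
  · intro h
    apply rt_inj h0
    rw [← g_rt hθ, rt_zero]
    exact h

/-! ### transitivity over the cyclotomic extension -/

theorem fixed_mem (x : Kb K) (h : ∀ g : GK K, g x = x) : ∃ c : K, algebraMap K (Kb K) c = x := by
  have h1 : IsGalois K (Kb K) := inferInstance
  exact (InfiniteGalois.mem_range_algebraMap_iff_fixed x).2 h

theorem comm_mem (p : ℕ) [Fact p.Prime] (g h : GK K) : g * h * (h * g)⁻¹ ∈ Gcyc K p := by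
  have h1 : ∀ a b : ℤ_[p]ˣ, a * b * (b * a)⁻¹ = 1 := fun a b => by
    rw [mul_comm a b, mul_inv_cancel]
  unfold Gcyc
  rw [MonoidHom.mem_ker, map_mul, map_inv, map_mul, map_mul]
  exact h1 _ _

theorem exists_trans (hθ : θ ^ 3 = algebraMap K (Kb K) δ) (hδ : ∀ c : K, c ^ 3 ≠ δ)
    (h3 : ∃ g : GK K, qch (-3 : K) g ≠ 1) (j : ZMod 3) : ∃ c ∈ Gcyc K 3, pi0 θ c 0 = j := by
  have h0 : θ ≠ 0 := by
    rintro rfl
    apply hδ 0
    have h1 : algebraMap K (Kb K) δ = 0 := by rw [← hθ]; ring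
    rw [map_eq_zero] at h1
    rw [h1]
    ring
  obtain ⟨σ, hσ⟩ := h3
  have hσ' : qch (-3 : K) σ = -1 := (Int.units_eq_one_or _).resolve_left hσ
  -- some commutator is a nontrivial translation
  obtain ⟨τ, hτ⟩ : ∃ τ : GK K, pi0 θ (τ * σ * (σ * τ)⁻¹) 0 ≠ 0 := by
    by_contra hno
    push Not at hno
    have hcom : ∀ τ : GK K, pi0 θ (τ * σ) 0 = pi0 θ (σ * τ) 0 := by
      intro τ
      have h1 : qch (-3 : K) (τ * σ * (σ * τ)⁻¹) = 1 := by
        rw [map_mul, map_inv, map_mul, map_mul, mul_comm (qch (-3 : K) σ), mul_inv_cancel]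
      have h2 : ∀ i, pi0 θ (τ * σ * (σ * τ)⁻¹) i = i := by
        intro i
        have h3 := hno τ
        unfold pi0 at h3 ⊢
        rw [h1] at h3 ⊢
        rw [mul_zero, zero_add] at h3
        rw [h3]
        simp
      have h4 : τ * σ = (τ * σ * (σ * τ)⁻¹) * (σ * τ) := by group
      rw [h4, pi0_mul hθ h0, h2]
    have hfix : ∀ τ : GK K, pi0 θ τ (-((kk θ σ : ℤ) : ZMod 3)) = -((kk θ σ : ℤ) : ZMod 3) := by
      intro τ
      have h1 := hcom τ
      rw [pi0_mul hθ h0, pi0_mul hθ h0] at h1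
      unfold pi0 at h1 ⊢
      rw [hσ'] at h1
      simp only [Units.val_neg, Units.val_one, Int.cast_neg, Int.cast_one, mul_zero, zero_add]
        at h1
      have h33 : (3 : ZMod 3) = 0 := by decide
      linear_combination (-1 : ZMod 3) * h1 + ((kk θ τ : ℤ) : ZMod 3) * h33
    obtain ⟨c, hc⟩ := fixed_mem (rt θ (-((kk θ σ : ℤ) : ZMod 3))) (fun τ => by
      rw [g_rt hθ, hfix])
    apply hδ c
    have h1 := rt_cube hθ (-((kk θ σ : ℤ) : ZMod 3))
    rw [← hc, ← map_pow] at h1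
    exact (algebraMap K (Kb K)).injective h1
  set c := τ * σ * (σ * τ)⁻¹ with hc
  have hcq : qch (-3 : K) c = 1 := by
    rw [hc, map_mul, map_inv, map_mul, map_mul, mul_comm (qch (-3 : K) σ), mul_inv_cancel]
  have hstep : ∀ i, pi0 θ c i = i + pi0 θ c 0 := by
    intro i
    unfold pi0
    rw [hcq]
    simp
  have hpow : ∀ n : ℕ, pi0 θ (c ^ n) 0 = n * pi0 θ c 0 := by
    intro n
    induction n with
    | zero => rw [pow_zero, pi0_one hθ h0]; simp
    | succ n ih =>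
      rw [pow_succ', pi0_mul hθ h0, ih, hstep]
      push_cast
      ring
  have : Fact (Nat.Prime 3) := ⟨Nat.prime_three⟩
  refine ⟨c ^ (j * (pi0 θ c 0)⁻¹).val, Subgroup.pow_mem _ (comm_mem 3 τ σ) _, ?_⟩
  rw [hpow, ZMod.natCast_val, ZMod.cast_id, inv_mul_cancel_right₀ hτ]

/-! ### the induced module -/

/-- Functions on the cube roots, with the action twisted by `χ`. -/
noncomputable def rhoI (χ : GK K →* ℤˣ) (hθ : θ ^ 3 = algebraMap K (Kb K) δ) (h0 : θ ≠ 0) :
    GK K →* AddMonoid.End (ZMod 3 → ZMod 3) where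
  toFun g :=
    { toFun := fun f j => chRep χ g (f (pi0 θ g⁻¹ j))
      map_zero' := by
        funext j
        simp
      map_add' := fun f f' => by
        funext j
        simp }
  map_one' := AddMonoidHom.ext fun f => funext fun j => by
    change chRep χ 1 (f (pi0 θ 1⁻¹ j)) = f j
    rw [inv_one, pi0_one hθ h0, map_one]
    rfl
  map_mul' g h := AddMonoidHom.ext fun f => funext fun j => by
    change chRep χ (g * h) (f (pi0 θ (g * h)⁻¹ j)) =
      chRep χ g (chRep χ h (f (pi0 θ h⁻¹ (pi0 θ g⁻¹ j))))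
    rw [mul_inv_rev, pi0_mul hθ h0, map_mul]
    rfl

theorem rhoI_apply (χ : GK K →* ℤˣ) (hθ : θ ^ 3 = algebraMap K (Kb K) δ) (h0 : θ ≠ 0)
    (g : GK K) (f : ZMod 3 → ZMod 3) (j : ZMod 3) :
    rhoI χ hθ h0 g f j = chRep χ g (f (pi0 θ g⁻¹ j)) := rfl

/-- The sum of the values. -/
def sumHom : (ZMod 3 → ZMod 3) →+ ZMod 3 where
  toFun f := ∑ j, f j
  map_zero' := by simp
  map_add' f f' := by simp [Finset.sum_add_distrib]

theorem sumHom_apply (f : ZMod 3 → ZMod 3) : sumHom f = f 0 + f 1 + f 2 := by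
  change ∑ j, f j = _
  have : (Finset.univ : Finset (ZMod 3)) = {0, 1, 2} := by decide
  rw [this, Finset.sum_insert (by decide), Finset.sum_insert (by decide), Finset.sum_singleton]
  ring

theorem sumHom_rhoI (χ : GK K →* ℤˣ) (hθ : θ ^ 3 = algebraMap K (Kb K) δ) (h0 : θ ≠ 0)
    (g : GK K) (f : ZMod 3 → ZMod 3) :
    sumHom (rhoI χ hθ h0 g f) = chRep χ g (sumHom f) := by
  let e : ZMod 3 ≃ ZMod 3 :=
    { toFun := pi0 θ g⁻¹
      invFun := pi0 θ g
      left_inv := fun j => by rw [← pi0_mul hθ h0, mul_inv_cancel, pi0_one hθ h0]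
      right_inv := fun j => by rw [← pi0_mul hθ h0, inv_mul_cancel, pi0_one hθ h0] }
  change ∑ j, chRep χ g (f (e j)) = chRep χ g (∑ j, f j)
  rw [map_sum]
  exact Equiv.sum_comp e (fun j => chRep χ g (f j))

theorem ker_stable (χ : GK K →* ℤˣ) (hθ : θ ^ 3 = algebraMap K (Kb K) δ) (h0 : θ ≠ 0)
    (g : GK K) (f : ZMod 3 → ZMod 3) (hf : f ∈ sumHom.ker) : rhoI χ hθ h0 g f ∈ sumHom.ker := by
  rw [AddMonoidHom.mem_ker] at hf ⊢
  rw [sumHom_rhoI, hf, map_zero]

theorem pi0_inv (hθ : θ ^ 3 = algebraMap K (Kb K) δ) (h0 : θ ≠ 0) (g : GK K) (j : ZMod 3) :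
    pi0 θ g⁻¹ j = (((qch (-3 : K) g : ℤˣ) : ℤ) : ZMod 3) * (j - ((kk θ g : ℤ) : ZMod 3)) := by
  have h1 : pi0 θ g (pi0 θ g⁻¹ j) = j := by
    rw [← pi0_mul hθ h0, mul_inv_cancel, pi0_one hθ h0]
  have h2 : (((qch (-3 : K) g : ℤˣ) : ℤ) : ZMod 3) * (((qch (-3 : K) g : ℤˣ) : ℤ) : ZMod 3) = 1 := by
    rcases Int.units_eq_one_or (qch (-3 : K) g) with h | h
    · rw [h]; decide
    · rw [h]; decide
  set x := pi0 θ g⁻¹ j with hx
  unfold pi0 at h1
  rw [← h1]
  linear_combination (-x) * h2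

theorem form_ker (χ : GK K →* ℤˣ) (hθ : θ ^ 3 = algebraMap K (Kb K) δ) (h0 : θ ≠ 0) :
    Form (subRep (rhoI χ hθ h0) sumHom.ker (ker_stable χ hθ h0))
      (⟨fun _ => 1, by rw [AddMonoidHom.mem_ker, sumHom_apply]; decide⟩ : sumHom.ker)
      (⟨fun j => j, by rw [AddMonoidHom.mem_ker, sumHom_apply]; decide⟩ : sumHom.ker)
      χ (χ * qch (-3 : K)) (kk θ) where
  t3 := by
    apply Subtype.ext
    funext j
    change (3 : ℕ) • (1 : ZMod 3) = 0
    decide
  w3 := by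
    apply Subtype.ext
    funext j
    change (3 : ℕ) • (j : ZMod 3) = 0
    revert j
    decide
  span := by
    rintro ⟨f, hf⟩
    rw [AddMonoidHom.mem_ker, sumHom_apply] at hf
    refine ⟨(f 0).val, (f 1 - f 0).val, Subtype.ext (funext fun j => ?_)⟩
    change f j = (((f 0).val : ℤ)) • (1 : ZMod 3) + (((f 1 - f 0).val : ℤ)) • j
    rw [zsmul_eq_mul, zsmul_eq_mul, Int.cast_natCast, Int.cast_natCast, ZMod.natCast_val,
      ZMod.natCast_val, ZMod.cast_id, ZMod.cast_id, mul_one]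
    have h33 : (3 : ZMod 3) = 0 := by decide
    fin_cases j
    · change f 0 = f 0 + (f 1 - f 0) * 0
      ring
    · change f 1 = f 0 + (f 1 - f 0) * 1
      ring
    · change f 2 = f 0 + (f 1 - f 0) * 2
      linear_combination hf + (-f 1) * h33
  ind := by
    intro m n h
    have h1 : ∀ j : ZMod 3, m • (1 : ZMod 3) + n • j = 0 := fun j =>
      congrFun (congrArg Subtype.val h) j
    have h2 := h1 0
    have h3 := h1 1
    rw [zsmul_eq_mul, zsmul_eq_mul] at h2 h3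
    rw [mul_one, mul_zero, add_zero] at h2
    rw [mul_one, mul_one, h2, zero_add] at h3
    exact ⟨(ZMod.intCast_zmod_eq_zero_iff_dvd m 3).1 h2, (ZMod.intCast_zmod_eq_zero_iff_dvd n 3).1 h3⟩
  gt g := by
    apply Subtype.ext
    funext j
    rfl
  gw g := by
    apply Subtype.ext
    funext j
    change ((χ g : ℤˣ) : ℤ) • (pi0 θ g⁻¹ j) =
      (((χ * qch (-3 : K)) g : ℤˣ) : ℤ) • (j - (kk θ g) • (1 : ZMod 3))
    rw [pi0_inv hθ h0, MonoidHom.mul_apply, Units.val_mul, zsmul_eq_mul, zsmul_eq_mul,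
      zsmul_eq_mul, Int.cast_mul, mul_one]
    ring

end Pool.Agent.Helper27.FS
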