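import Pool.Agent.Helper27.FS.Cub
import Pool.Agent.Helper3.FS.Bridge
import Pool.Agent.Helper98.FS.Arith
import Pool.Agent.Helper99.FS.A146
import Pool.Agent.Helper21.FS.A3
import Pool.Agent.Helper69.FS.Sh

/-!
# Fine Selmer groups of modules of order 9 and of characters over pure cubic extensions
-/

set_option autoImplicit false

open scoped NumberField Pointwise

namespace Pool.Agent.Helper27.FS

open Pool.Agent.Helper58.FS Pool.Agent.Helper58.IQ

section

variable {G : Type*} [Group G] [TopologicalSpace G] (X : Type*) [MulAction G X]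
  {M : Type*} [AddCommGroup M]

/-- Only the values on `H` matter. -/
theorem fin_congr {H : Subgroup G} {a b : G → M →+ M} [Finite M] (e : ∀ g ∈ H, a g = b g)
    (h : FinSh X a H) : FinSh X b H :=
  Pool.Agent.Helper99.FS.a1 X (AddMonoidHom.id M) Function.injective_id (fun g hg n => by
    rw [e g hg]
    rfl) h

end

variable {K : Type*} [Field K] [NumberField K]

open Classical in
/-- The action on the numbers of the cube roots, extended to `Gal(Kb/ℚ)`. -/
noncomputable def piQ (θ : Kb K) (g : GQ (Kb K)) : ZMod 3 → ZMod 3 :=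
  if h : ∃ g' : GK K, toQ K g' = g then pi0 θ h.choose else id

theorem piQ_toQ (θ : Kb K) (g : GK K) : piQ θ (toQ K g) = pi0 θ g := by
  have h : ∃ g' : GK K, toQ K g' = toQ K g := ⟨g, rfl⟩
  unfold piQ
  rw [dif_pos h, toQ_inj K h.choose_spec]

theorem open_of_trivial {N : Type*} [AddCommGroup N] (σ : GK K →* AddMonoid.End N)
    (V : Subgroup (GK K)) (hV : IsOpen (V : Set (GK K))) (h : ∀ g ∈ V, ∀ x, σ g x = x) (x : N) :
    IsOpen {g : GK K | σ g x = x} := by
  let S : Subgroup (GK K) :=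
    { carrier := {g | σ g x = x}
      one_mem' := by
        change σ 1 x = x
        rw [map_one]
        rfl
      mul_mem' := by
        intro g k hg hk
        change σ (g * k) x = x
        rw [map_mul]
        change σ g (σ k x) = x
        have hg' : σ g x = x := hg
        have hk' : σ k x = x := hk
        rw [hk', hg']
      inv_mem' := by
        intro g hg
        have hg' : σ g x = x := hg
        change σ g⁻¹ x = x
        have h1 : σ (g⁻¹ * g) x = x := by
          rw [inv_mul_cancel, map_one]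
          rfl
        rw [map_mul] at h1
        change σ g⁻¹ (σ g x) = x at h1
        rwa [hg'] at h1 }
  exact Subgroup.isOpen_mono (H₁ := V) (H₂ := S) (fun g hg => h g hg x) hV

theorem fix_adjoin {θ : Kb K} {g : GK K} (hg : g θ = θ) :
    g ∈ (IntermediateField.adjoin K {θ}).fixingSubgroup := by
  rw [IntermediateField.mem_fixingSubgroup_iff]
  intro x hx
  induction hx using IntermediateField.adjoin_induction with
  | mem x hx =>
    rw [Set.mem_singleton_iff.1 hx]
    exact hg
  | algebraMap x => exact g.commutes x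
  | add x y _ _ hx hy => rw [map_add, hx, hy]
  | inv x _ hx => rw [map_inv₀, hx]
  | mul x y _ _ hx hy => rw [map_mul, hx, hy]

theorem cubic {M : Type*} [AddCommGroup M]
    (ρ : GK K →* AddMonoid.End M) (hρ : ∀ x : M, IsOpen {g : GK K | ρ g x = x}) (t w : M)
    (χ : GK K →* ℤˣ) (θ : Kb K) (δ : K) (hθ : θ ^ 3 = algebraMap K (Kb K) δ)
    (hδ : ∀ c : K, c ^ 3 ≠ δ) (h3 : ∃ g : GK K, qch (-3 : K) g ≠ 1)
    (hf : Form ρ t w χ (χ * qch (-3 : K)) (kk θ)) :
    FinSel ρ (Gcyc K 3) ↔
      FinSel (chRep χ) ((IntermediateField.adjoin K {θ}).fixingSubgroup ⊓ Gcyc K 3) := by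
  have h0 : θ ≠ 0 := by
    rintro rfl
    apply hδ 0
    have h1 : algebraMap K (Kb K) δ = 0 := by rw [← hθ]; ring
    rw [map_eq_zero] at h1
    rw [h1]
    ring
  obtain ⟨e, he⟩ := hf.iso (form_ker χ hθ h0)
  have hfM : Finite M := Finite.of_equiv _ e.symm.toEquiv
  -- an open subgroup which acts trivially
  obtain ⟨V, hV, hVM⟩ := Pool.Agent.Helper3.FS.exists_trivial ρ hρ
  have hVt : ∀ g ∈ V, χ g = 1 ∧ pi0 θ g = id := by
    intro g hg
    have h1 := hVM g hg t
    have h2 := hVM g hg w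
    rw [hf.gt] at h1
    rw [hf.gw] at h2
    have hχ : χ g = 1 := by
      rcases Int.units_eq_one_or (χ g) with h | h
      · exact h
      · exfalso
        rw [h] at h1
        have h4 := (hf.ind (-2) 0 (by
          simp only [Units.val_neg, Units.val_one, neg_smul, one_smul] at h1
          rw [zero_smul, add_zero, neg_smul, two_zsmul]
          nth_rw 1 [← h1]
          simp)).1
        norm_num at h4
    rw [MonoidHom.mul_apply, hχ, one_mul] at h2
    have h5 : (-(((qch (-3 : K) g : ℤˣ) : ℤ) * kk θ g)) • t +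
        (((qch (-3 : K) g : ℤˣ) : ℤ) - 1) • w = 0 := by
      rw [sub_smul, one_smul, neg_smul, mul_smul]
      rw [smul_sub] at h2
      rw [← sub_eq_zero.2 h2]
      abel
    obtain ⟨h6, h7⟩ := hf.ind _ _ h5
    have hω : qch (-3 : K) g = 1 := by
      rcases Int.units_eq_one_or (qch (-3 : K) g) with h | h
      · exact h
      · exfalso
        rw [h] at h7
        norm_num at h7
    rw [hω] at h6
    have h8 : ((kk θ g : ℤ) : ZMod 3) = 0 := by
      rw [ZMod.intCast_zmod_eq_zero_iff_dvd]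
      simpa using h6
    refine ⟨hχ, funext fun j => ?_⟩
    unfold pi0
    rw [hω, h8]
    simp
  have hχo : ∀ x : ZMod 3, IsOpen {g : GK K | chRep χ g x = x} :=
    open_of_trivial (chRep χ) V hV (fun g hg x => by
      rw [chRep_apply, (hVt g hg).1]
      simp)
  have hIo : ∀ f : ZMod 3 → ZMod 3, IsOpen {g : GK K | rhoI χ hθ h0 g f = f} :=
    open_of_trivial (rhoI χ hθ h0) V hV (fun g hg f => by
      funext j
      rw [rhoI_apply, chRep_apply, (hVt g hg).1, (hVt g⁻¹ (V.inv_mem hg)).2]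
      simp)
  rw [Pool.Agent.Helper3.FS.fin_iff ρ hρ, Pool.Agent.Helper3.FS.fin_iff (chRep χ) hχo]
  have hgm := Pool.Agent.Helper3.FS.gcyc_map (K := K) 3
  have halg : Algebra.IsAlgebraic ℚ (Kb K) := Algebra.IsAlgebraic.trans ℚ K (Kb K)
  have hgal : IsGalois ℚ (Kb K) := Pool.Agent.Helper3.FS.isGalois_Q
  have hA : ArithHyp (Prm (Kb K)) (Cyc (Kb K) 3) 3 :=
    Pool.Agent.Helper98.FS.arith 3 (by norm_num)
  have hN := Pool.Agent.Helper3.FS.act_ext ρ hρ (Gcyc K 3)
  have hM := Pool.Agent.Helper3.FS.act_ext (rhoI χ hθ h0) hIo (Gcyc K 3)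
  have hQ := Pool.Agent.Helper3.FS.act_ext (chRep χ) hχo (Gcyc K 3)
  set H := (Gcyc K 3).map (toQ K) with hH
  set H' := ((IntermediateField.adjoin K {θ}).fixingSubgroup ⊓ Gcyc K 3).map (toQ K) with hH'
  have p1 : piQ θ 1 = id := by
    rw [← map_one (toQ K), piQ_toQ]
    exact funext fun j => pi0_one hθ h0 j
  have pm : ∀ g ∈ H, ∀ h ∈ H, piQ θ (g * h) = piQ θ g ∘ piQ θ h := by
    rintro _ ⟨g, -, rfl⟩ _ ⟨h, -, rfl⟩
    rw [← map_mul, piQ_toQ, piQ_toQ, piQ_toQ]
    exact funext fun j => pi0_mul hθ h0 g h j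
  have pc : ∃ U : Subgroup (GQ (Kb K)), IsOpen (U : Set (GQ (Kb K))) ∧
      ∀ u ∈ U ⊓ H, piQ θ u = id := by
    refine ⟨V.map (toQ K), Pool.Agent.Helper3.FS.isOpen_map V hV, ?_⟩
    rintro _ ⟨⟨g, hg, rfl⟩, -⟩
    rw [piQ_toQ]
    exact (hVt g hg).2
  have ptr : ∀ j, ∃ h ∈ H, piQ θ h 0 = j := by
    intro j
    obtain ⟨c, hc, hcj⟩ := exists_trans hθ hδ h3 j
    exact ⟨toQ K c, ⟨c, hc, rfl⟩, by rw [piQ_toQ, hcj]⟩
  have pH' : ∀ g, g ∈ H' ↔ g ∈ H ∧ piQ θ g 0 = 0 := by
    intro g
    constructor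
    · rintro ⟨g, hg, rfl⟩
      refine ⟨⟨g, hg.2, rfl⟩, ?_⟩
      rw [piQ_toQ, pi0_fix hθ h0]
      have h1 : g ∈ (IntermediateField.adjoin K {θ}).fixingSubgroup := hg.1
      rw [IntermediateField.mem_fixingSubgroup_iff] at h1
      exact h1 θ (IntermediateField.mem_adjoin_simple_self K θ)
    · rintro ⟨⟨g, hg, rfl⟩, h1⟩
      rw [piQ_toQ, pi0_fix hθ h0] at h1
      exact ⟨g, ⟨fix_adjoin h1, hg⟩, rfl⟩
  -- the two descriptions of the induced module
  have hind : ∀ g ∈ H, extAct (rhoI χ hθ h0) g = indAct (extAct (chRep χ)) (piQ θ) g := by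
    rintro _ ⟨g, -, rfl⟩
    rw [extAct_toQ]
    refine AddMonoidHom.ext fun f => funext fun j => ?_
    change rhoI χ hθ h0 g f j = extAct (chRep χ) (toQ K g) (f (piQ θ (toQ K g)⁻¹ j))
    rw [extAct_toQ, ← map_inv, piQ_toQ]
    rfl
  -- the embedding
  let i : M →+ (ZMod 3 → ZMod 3) := (sumHom.ker).subtype.comp e.toAddMonoidHom
  have hi : Function.Injective i := (Subtype.val_injective).comp e.injective
  have hei : ∀ g ∈ H, ∀ n, i (extAct ρ g n) = extAct (rhoI χ hθ h0) g (i n) := by
    rintro _ ⟨g, -, rfl⟩ n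
    rw [extAct_toQ, extAct_toQ]
    exact congrArg Subtype.val (he g n)
  constructor
  · intro h
    let c : ZMod 3 →+ sumHom.ker :=
      { toFun := fun x => ⟨fun _ => x, by
          rw [AddMonoidHom.mem_ker, sumHom_apply]
          revert x
          decide⟩
        map_zero' := rfl
        map_add' := fun _ _ => rfl }
    have hcinj : Function.Injective c := fun x y hxy => congrFun (congrArg Subtype.val hxy) 0
    have hq : FinSh (Prm (Kb K)) (extAct (chRep χ)) H := by
      refine Pool.Agent.Helper99.FS.a1 (Prm (Kb K)) (e.symm.toAddMonoidHom.comp c)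
        (e.symm.injective.comp hcinj) ?_ h
      rintro _ ⟨g, -, rfl⟩ n
      rw [extAct_toQ, extAct_toQ]
      change e.symm (c (chRep χ g n)) = ρ g (e.symm (c n))
      rw [AddEquiv.symm_apply_eq, he, AddEquiv.apply_symm_apply]
      rfl
    have h1 : FinSh (Prm (Kb K)) (extAct (rhoI χ hθ h0)) H := by
      refine Pool.Agent.Helper21.FS.a3 (Prm (Kb K)) hA (H := H) ?_ ?_ hN hM hQ ⟨1, ?_⟩ i sumHom hi
        ?_ ?_ hei ?_ h hq
      · rw [hgm]
        exact inf_le_right
      · refine ⟨(toQ K).range, ?_, ?_⟩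
        · have h5 := Pool.Agent.Helper3.FS.isOpen_map (K := K) ⊤ isOpen_univ
          rwa [← MonoidHom.range_eq_map] at h5
        · rw [hgm]
      · intro m
        funext j
        change 3 ^ 1 • m j = 0
        generalize m j = x
        revert x
        decide
      · intro x
        refine ⟨fun j => if j = 0 then x else 0, ?_⟩
        rw [sumHom_apply, if_pos rfl, if_neg (by decide), if_neg (by decide), add_zero, add_zero]
      · intro m
        rw [← AddMonoidHom.mem_ker]
        constructor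
        · intro hm
          refine ⟨e.symm ⟨m, hm⟩, ?_⟩
          change ((e (e.symm ⟨m, hm⟩) : sumHom.ker) : ZMod 3 → ZMod 3) = m
          rw [AddEquiv.apply_symm_apply]
        · rintro ⟨n, rfl⟩
          exact (e n).2
      · rintro _ ⟨g, -, rfl⟩ m
        rw [extAct_toQ, extAct_toQ]
        exact sumHom_rhoI χ hθ h0 g m
    exact Pool.Agent.Helper69.FS.sh2 (Prm (Kb K)) hQ (piQ θ) p1 pm pc 0 ptr pH'
      (fin_congr (Prm (Kb K)) hind h1)
  · intro h
    have h1 := Pool.Agent.Helper69.FS.sh1 (Prm (Kb K)) hQ (piQ θ) p1 pm pc 0 ptr pH' h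
    have h2 : FinSh (Prm (Kb K)) (extAct (rhoI χ hθ h0)) H :=
      fin_congr (Prm (Kb K)) (fun g hg => (hind g hg).symm) h1
    exact Pool.Agent.Helper99.FS.a1 (Prm (Kb K)) i hi hei h2

end Pool.Agent.Helper27.FS
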